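import Pool.Agent.Helper63.BT.BDaux

/-!
# Block BT-BD0
-/

namespace Pool.Helper4.BT

open MeasureTheory Metric Set

/-- Pointwise bound of the sum of the bubbles: those inside are kept, the others are small. -/
theorem BD_sum_bound {k : ℕ} {mu : ℕ → ℝ} {z : ℕ → E} {c x : E} {ρ T : ℝ} {L : Finset ℕ}
    (hL : L.card ≤ k) (hT : 0 ≤ T)
    (h : ∀ l ∈ L, ¬ ‖z l - c‖ ≤ ρ / 4 → U (mu l) (z l) x ≤ T) :
    ∑ l ∈ L, U (mu l) (z l) x ≤
      ∑ l ∈ L.filter (fun l => ‖z l - c‖ ≤ ρ / 4), U (mu l) (z l) x + k * T := by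
  rw [← Finset.sum_filter_add_sum_filter_not L (fun l => ‖z l - c‖ ≤ ρ / 4)]
  have h1 : ∑ l ∈ L.filter (fun l => ¬ ‖z l - c‖ ≤ ρ / 4), U (mu l) (z l) x ≤ k * T := by
    calc ∑ l ∈ L.filter (fun l => ¬ ‖z l - c‖ ≤ ρ / 4), U (mu l) (z l) x
        ≤ ∑ _l ∈ L.filter (fun l => ¬ ‖z l - c‖ ≤ ρ / 4), T := by
          apply Finset.sum_le_sum
          intro l hl
          rw [Finset.mem_filter] at hl
          exact h l hl.1 hl.2
      _ = (L.filter (fun l => ¬ ‖z l - c‖ ≤ ρ / 4)).card * T := by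
          rw [Finset.sum_const, nsmul_eq_mul]
      _ ≤ k * T := by
          have h2 : (L.filter (fun l => ¬ ‖z l - c‖ ≤ ρ / 4)).card ≤ k :=
            (Finset.card_filter_le _ _).trans hL
          have h3 : ((L.filter (fun l => ¬ ‖z l - c‖ ≤ ρ / 4)).card : ℝ) ≤ k := by
            exact_mod_cast h2
          exact mul_le_mul_of_nonneg_right h3 hT
  linarith

theorem bd0 : ∀ (k : ℕ) (Λ R C3 : ℝ), ∃ C : ℝ, 0 < C ∧ ∀ τ : ℝ, 0 < τ → τ ≤ 1 / 64 →
    ∃ ω0 : ℝ, 0 < ω0 ∧ ∀ (ω : ℝ) (p : E) (u : E → ℝ) (lam : ℝ) (mu : ℕ → ℝ) (z : ℕ → E)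
      (sg : ℕ → ℝ) (ρ : ℝ), ω ≤ ω0 → Conf k Λ R C3 τ ω p u lam mu z sg → Rho0 k mu z ρ →
      BD k Λ C τ u lam (z 0) (mu 0) ρ 1 (sg 0)
        ((Finset.Ico 1 k).filter (fun l => ‖z l - z 0‖ ≤ ρ / 4)) mu z := by
  intro k Λ R C3
  refine ⟨|C3| * (k + 5) + 1, by positivity, ?_⟩
  intro τ hτ0 hτ64
  by_cases hR : 0 < R
  swap
  · refine ⟨1, one_pos, ?_⟩
    intro ω p u lam mu z sg ρ _ hc _
    exact absurd hc.hR.1 hR
  have hI0 := I0_pos
  set S : ℝ := 32 ^ (2 * k) with hSdef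
  have hS : 1 ≤ S := one_le_pow₀ (by norm_num)
  have hS0 : 0 < S := by linarith
  refine ⟨min (R ^ 2 / 64) (min (τ ^ 2 / S ^ 3) (τ / ((k + 1) * (1 + k * I0)))), by positivity, ?_⟩
  intro ω p u lam mu z sg ρ hω hc hρ
  have hω1 : ω ≤ R ^ 2 / 64 := hω.trans (min_le_left _ _)
  have hω2 : ω ≤ τ ^ 2 / S ^ 3 := hω.trans ((min_le_right _ _).trans (min_le_left _ _))
  have hω3 : ω ≤ τ / ((k + 1) * (1 + k * I0)) :=
    hω.trans ((min_le_right _ _).trans (min_le_right _ _))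
  have hk := hc.hk
  have hω0 := hc.hω.1
  have hωτ := hc.hω.2
  have hm0 : 0 < mu 0 := hc.hmu 0 (by omega)
  have hC3 := hc.hC3
  have hρ0 := hρ.pos
  have hge : mu 0 ≤ S * ρ ^ 2 := hρ.ge
  have hR1 := hc.hR.2
  -- sizes
  have hρR : ρ ≤ R / 8 := by
    apply le_of_sq_le_sq _ (by positivity)
    have := hρ.le
    have := hc.hmu0
    calc ρ ^ 2 ≤ R ^ 2 / 64 := by linarith
      _ = (R / 8) ^ 2 := by ring
  have hρ1 : ρ ≤ 1 := by linarith
  have hωS : ω * S ^ 3 ≤ τ ^ 2 := by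
    rwa [le_div_iff₀ (by positivity)] at hω2
  have hτ2 : τ ^ 2 ≤ τ := by nlinarith
  have hcard : (Finset.Ico 1 k).card ≤ k := by rw [Nat.card_Ico]; omega
  have hsmall : ∀ l ∈ Finset.Ico 1 k, mu l ≤ ω * mu 0 := by
    intro l hl
    rw [Finset.mem_Ico] at hl
    exact hc.hsep 0 l (by omega) hl.2
  have hpos : ∀ l ∈ Finset.Ico 1 k, 0 < mu l := by
    intro l hl
    rw [Finset.mem_Ico] at hl
    exact hc.hmu l hl.2
  have hωS2 : ω * S ≤ 1 := by
    have h1 : S ≤ S ^ 3 := by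
      calc S = S ^ 1 := (pow_one S).symm
        _ ≤ S ^ 3 := pow_le_pow_right₀ hS (by norm_num)
    have h2 : ω * S ≤ ω * S ^ 3 := mul_le_mul_of_nonneg_left h1 hω0.le
    have h3 : τ ^ 2 ≤ 1 := by nlinarith
    linarith
  refine ⟨?_, hc.hu, hc.hlam, ⟨hτ0, by linarith⟩, hm0, ⟨hρ0, hρ1⟩, le_rfl, hc.hsg 0 (by omega),
    ?_, ?_, ?_, ?_, ?_, ?_⟩
  · exact (Finset.card_filter_le _ _).trans hcard
  · intro l hl
    rw [Finset.mem_filter] at hl
    refine ⟨hpos l hl.1, (hsmall l hl.1).trans ?_, hl.2⟩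
    exact mul_le_mul_of_nonneg_right hωτ hm0.le
  · -- the pointwise bound
    intro x hx
    rw [mem_closedBall, dist_eq_norm] at hx
    have hxp : x ∈ closedBall p R := by
      rw [mem_closedBall, dist_eq_norm]
      have h1 : ‖x - p‖ ≤ ‖x - z 0‖ + ‖z 0 - p‖ := by
        have := norm_add_le (x - z 0) (z 0 - p)
        rwa [sub_add_sub_cancel] at this
      have h2 := hc.hz 0 (by omega)
      have h3 := hc.hωR
      linarith
    have hst := hc.hstar x hxp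
    have hfar : ∀ l ∈ Finset.Ico 1 k, ¬ ‖z l - z 0‖ ≤ ρ / 4 → U (mu l) (z l) x ≤ 1 := by
      intro l hl hn
      have hl' := Finset.mem_Ico.1 hl
      have h8 : 8 * ρ ≤ ‖z l - z 0‖ := by
        rcases hρ.gap l hl'.1 hl'.2 with h | h
        · exact absurd h hn
        · exact h
      have h6 : 6 * ρ ≤ ‖x - z l‖ := by
        have h1 : ‖z l - z 0‖ ≤ ‖x - z l‖ + ‖x - z 0‖ := by
          have := norm_add_le (z l - x) (x - z 0)
          rwa [sub_add_sub_cancel, norm_sub_rev (z l) x] at this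
        linarith
      refine (BD_U_far (by positivity) h6).trans ?_
      rw [div_le_one (by positivity)]
      have h1 : mu l ^ 2 ≤ (ω * mu 0) ^ 2 := pow_le_pow_left₀ (hpos l hl).le (hsmall l hl) 2
      have h2 : mu 0 ^ 2 ≤ (S * ρ ^ 2) ^ 2 := pow_le_pow_left₀ hm0.le hge 2
      have h3 : (ω * S) ^ 2 ≤ 1 := by
        have := pow_le_pow_left₀ (by positivity) hωS2 2
        rwa [one_pow] at this
      have h4 : mu l ^ 2 ≤ ρ ^ 4 := by
        calc mu l ^ 2 ≤ (ω * mu 0) ^ 2 := h1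
          _ = ω ^ 2 * mu 0 ^ 2 := by ring
          _ ≤ ω ^ 2 * (S * ρ ^ 2) ^ 2 := mul_le_mul_of_nonneg_left h2 (by positivity)
          _ = (ω * S) ^ 2 * ρ ^ 4 := by ring
          _ ≤ 1 * ρ ^ 4 := mul_le_mul_of_nonneg_right h3 (by positivity)
          _ = ρ ^ 4 := one_mul _
      have h5 : 0 < ρ ^ 4 := by positivity
      have e : (6 * ρ) ^ 4 = 1296 * ρ ^ 4 := by ring
      rw [e]
      linarith
    have hsum := BD_sum_bound (k := k) (mu := mu) (z := z) (c := z 0) (x := x) (ρ := ρ) (T := 1)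
      hcard (by norm_num) hfar
    have e0 : ∑ l ∈ Finset.range k, U (mu l) (z l) x =
        U (mu 0) (z 0) x + ∑ l ∈ Finset.Ico 1 k, U (mu l) (z l) x := by
      rw [Finset.range_eq_Ico, Finset.sum_eq_sum_Ico_succ_bot (by omega : 0 < k)]
    rw [e0] at hst
    set a := U (mu 0) (z 0) x with ha
    set b := ∑ l ∈ (Finset.Ico 1 k).filter (fun l => ‖z l - z 0‖ ≤ ρ / 4), U (mu l) (z l) x with hb
    have ha0 : 0 ≤ a := BD_U_nonneg _ _ _
    have hb0 : 0 ≤ b := Finset.sum_nonneg fun l _ => BD_U_nonneg _ _ _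
    have hC : |C3| = C3 := abs_of_nonneg (by linarith)
    rw [hC]
    have hk0 : (0 : ℝ) ≤ k := Nat.cast_nonneg k
    calc |u x| ≤ C3 * (1 + (a + (b + k * 1))) := by
          refine hst.trans ?_
          apply mul_le_mul_of_nonneg_left _ (by linarith)
          linarith
      _ ≤ C3 * ((k + 5) * (1 + a + b)) := by
          apply mul_le_mul_of_nonneg_left _ (by linarith)
          have : 0 ≤ (k : ℝ) * (a + b) := by positivity
          linarith
      _ ≤ (C3 * (k + 5) + 1) * (1 + a + b) := by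
          have : 0 ≤ 1 + a + b := by linarith
          linarith
  · -- r1
    have h1 : ρ ^ 6 ≤ mu 0 ^ 3 := by
      calc ρ ^ 6 = (ρ ^ 2) ^ 3 := by ring
        _ ≤ mu 0 ^ 3 := pow_le_pow_left₀ (by positivity) hρ.le 3
    have h2 : mu 0 ^ 3 ≤ τ * mu 0 ^ 2 := by
      have h3 : mu 0 ≤ τ := hc.hmu0.trans hωτ
      calc mu 0 ^ 3 = mu 0 * mu 0 ^ 2 := by ring
        _ ≤ τ * mu 0 ^ 2 := mul_le_mul_of_nonneg_right h3 (by positivity)
    linarith
  · -- r2
    have h1 : ω * S ≤ τ ^ 2 := by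
      have h1 : S ≤ S ^ 3 := by
        calc S = S ^ 1 := (pow_one S).symm
          _ ≤ S ^ 3 := pow_le_pow_right₀ hS (by norm_num)
      exact (mul_le_mul_of_nonneg_left h1 hω0.le).trans hωS
    calc mu 0 ^ 2 = mu 0 * mu 0 := by ring
      _ ≤ ω * (S * ρ ^ 2) := mul_le_mul hc.hmu0 hge hm0.le hω0.le
      _ = (ω * S) * ρ ^ 2 := by ring
      _ ≤ τ ^ 2 * ρ ^ 2 := mul_le_mul_of_nonneg_right h1 (by positivity)
  · -- r3
    have h1 : mu 0 ^ 3 ≤ (S * ρ ^ 2) ^ 3 := pow_le_pow_left₀ hm0.le hge 3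
    calc mu 0 ^ 4 = mu 0 * mu 0 ^ 3 := by ring
      _ ≤ ω * (S * ρ ^ 2) ^ 3 := mul_le_mul hc.hmu0 h1 (by positivity) hω0.le
      _ = (ω * S ^ 3) * ρ ^ 6 := by ring
      _ ≤ τ * 1 * ρ ^ 6 := by
          apply mul_le_mul_of_nonneg_right _ (by positivity)
          linarith
  · -- the core
    have hcore := hc.hcore 0 (by norm_num)
    refine (BD_core_gen hc.hu.continuous hc.hmu hc.hsg (by omega : 0 < k) (z 0) (mu 0 / τ)).trans ?_
    have e1 : (Finset.range k).erase 0 = Finset.Ico 1 k := by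
      ext l
      simp only [Finset.mem_erase, Finset.mem_range, Finset.mem_Ico]
      omega
    rw [e1]
    have h1 : ∑ l ∈ Finset.Ico 1 k, ∫ x in closedBall (z 0) (mu 0 / τ), U (mu l) (z l) x ^ 2 ≤
        k * (I0 * ω ^ 2 * mu 0 ^ 2) := by
      calc ∑ l ∈ Finset.Ico 1 k, ∫ x in closedBall (z 0) (mu 0 / τ), U (mu l) (z l) x ^ 2
          ≤ ∑ _l ∈ Finset.Ico 1 k, I0 * ω ^ 2 * mu 0 ^ 2 := by
            apply Finset.sum_le_sum
            intro l hl
            exact BD_mass_small (hpos l hl) (hsmall l hl) hm0 hω0 _ _ _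
        _ = (Finset.Ico 1 k).card * (I0 * ω ^ 2 * mu 0 ^ 2) := by
            rw [Finset.sum_const, nsmul_eq_mul]
        _ ≤ k * (I0 * ω ^ 2 * mu 0 ^ 2) := by
            have h3 : ((Finset.Ico 1 k).card : ℝ) ≤ k := by exact_mod_cast hcard
            exact mul_le_mul_of_nonneg_right h3 (by positivity)
    have hk0 : (0 : ℝ) ≤ k := Nat.cast_nonneg k
    have hωle : ω ^ 2 ≤ ω := by nlinarith
    have h4 : ω * ((k + 1) * (1 + k * I0)) ≤ τ := by
      rwa [le_div_iff₀ (by positivity)] at hω3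
    calc (k : ℝ) * ((∫ x in closedBall (z 0) (mu 0 / τ), (u x - bubbles k sg mu z x) ^ 2) +
          ∑ l ∈ Finset.Ico 1 k, ∫ x in closedBall (z 0) (mu 0 / τ), U (mu l) (z l) x ^ 2)
        ≤ k * (ω * mu 0 ^ 2 + k * (I0 * ω ^ 2 * mu 0 ^ 2)) :=
          mul_le_mul_of_nonneg_left (add_le_add hcore h1) hk0
      _ ≤ k * (ω * mu 0 ^ 2 + k * (I0 * ω * mu 0 ^ 2)) := by gcongr
      _ = (ω * (k * (1 + k * I0))) * mu 0 ^ 2 := by ring
      _ ≤ τ * mu 0 ^ 2 := by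
          apply mul_le_mul_of_nonneg_right _ (by positivity)
          have : 0 ≤ ω * (1 + k * I0) := by positivity
          linarith

end Pool.Helper4.BT
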