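import Pool.Agent.Helper63.BT.BD0

/-!
# Block BT-BD1
-/

namespace Pool.Helper4.BT

open MeasureTheory Metric Set

/-- The first bubble near the centre of the second one. -/
theorem BD_U0 {k : ℕ} {τ : ℝ} {mu : ℕ → ℝ} {z : ℕ → E} {ρ : ℝ} (hτ0 : 0 < τ) (hτ : τ ≤ 1 / 64)
    (hm0 : 0 < mu 0) (h : Rho1 k τ mu z ρ) {x : E} (hx : ‖x - z 1‖ ≤ 2 * ρ) :
    U (mu 0) (z 0) x ≤ 6 / 5 * tt mu z := by
  have hD2 : DD mu z ^ 2 = mu 0 ^ 2 + ‖z 0 - z 1‖ ^ 2 := Real.sq_sqrt (by positivity)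
  have hD0 : 0 < DD mu z := Real.sqrt_pos.2 (by positivity)
  have hρ := h.pos
  have hle := h.le
  have htt : tt mu z = 24 * mu 0 ^ 2 / (DD mu z ^ 2) ^ 2 := by
    unfold tt U A
    rw [hD2, norm_sub_rev]
  set q := ‖z 0 - z 1‖ with hq
  have hq0 : 0 ≤ q := norm_nonneg _
  have hqD : q ≤ DD mu z := by
    apply le_of_sq_le_sq _ hD0.le
    rw [hD2]
    have := sq_nonneg (mu 0)
    linarith
  have hn : q - 2 * ρ ≤ ‖x - z 0‖ := by
    have h1 : ‖z 0 - z 1‖ ≤ ‖x - z 0‖ + ‖x - z 1‖ := by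
      have := norm_add_le (z 0 - x) (x - z 1)
      rwa [sub_add_sub_cancel, norm_sub_rev (z 0) x] at this
    linarith
  have hn2 : q ^ 2 - 4 * q * ρ ≤ ‖x - z 0‖ ^ 2 := by
    rcases le_total (2 * ρ) q with h1 | h1
    · have h2 : (q - 2 * ρ) ^ 2 ≤ ‖x - z 0‖ ^ 2 := pow_le_pow_left₀ (by linarith) hn 2
      nlinarith
    · have h2 : q * q ≤ q * (2 * ρ) := mul_le_mul_of_nonneg_left h1 hq0
      have h3 : 0 ≤ q * ρ := by positivity
      have h4 : 0 ≤ ‖x - z 0‖ ^ 2 := by positivity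
      nlinarith
  have hA : 15 / 16 * DD mu z ^ 2 ≤ A (mu 0) (z 0) x := by
    unfold A
    have h1 : q * ρ ≤ DD mu z * (τ * DD mu z) := mul_le_mul hqD hle hρ.le hD0.le
    have h2 : τ * DD mu z ^ 2 ≤ 1 / 64 * DD mu z ^ 2 :=
      mul_le_mul_of_nonneg_right hτ (by positivity)
    nlinarith
  rw [htt]
  unfold U
  have h1 : (15 / 16 * DD mu z ^ 2) ^ 2 ≤ A (mu 0) (z 0) x ^ 2 :=
    pow_le_pow_left₀ (by positivity) hA 2
  calc 24 * mu 0 ^ 2 / A (mu 0) (z 0) x ^ 2 ≤ 24 * mu 0 ^ 2 / (15 / 16 * DD mu z ^ 2) ^ 2 :=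
        div_le_div_of_nonneg_left (by positivity) (by positivity) h1
    _ = 256 / 225 * (24 * mu 0 ^ 2 / (DD mu z ^ 2) ^ 2) := by field_simp; norm_num
    _ ≤ 6 / 5 * (24 * mu 0 ^ 2 / (DD mu z ^ 2) ^ 2) := by
        apply mul_le_mul_of_nonneg_right (by norm_num) (by positivity)

theorem BD_tt_le {mu : ℕ → ℝ} {z : ℕ → E} (hm0 : 0 < mu 0) :
    0 ≤ tt mu z ∧ tt mu z ≤ 24 / mu 0 ^ 2 := by
  constructor
  · exact BD_U_nonneg _ _ _
  · unfold tt U A
    rw [div_le_div_iff₀ (by positivity) (by positivity)]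
    have h1 : mu 0 ^ 2 ≤ mu 0 ^ 2 + ‖z 1 - z 0‖ ^ 2 := by
      have := sq_nonneg ‖z 1 - z 0‖
      linarith
    have h2 : (mu 0 ^ 2) ^ 2 ≤ (mu 0 ^ 2 + ‖z 1 - z 0‖ ^ 2) ^ 2 :=
      pow_le_pow_left₀ (by positivity) h1 2
    nlinarith

theorem bd1 : ∀ (k : ℕ) (Λ R C3 : ℝ), ∃ C : ℝ, 0 < C ∧ ∀ τ : ℝ, 0 < τ → τ ≤ 1 / 64 →
    ∃ ω0 : ℝ, 0 < ω0 ∧ ∀ (ω : ℝ) (p : E) (u : E → ℝ) (lam : ℝ) (mu : ℕ → ℝ) (z : ℕ → E)
      (sg : ℕ → ℝ) (ρ : ℝ), ω ≤ ω0 → Conf k Λ R C3 τ ω p u lam mu z sg → Rho1 k τ mu z ρ →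
      BD k Λ C τ u lam (z 1) (mu 1) ρ (1 + tt mu z) (sg 1)
        ((Finset.Ico 2 k).filter (fun l => ‖z l - z 1‖ ≤ ρ / 4)) mu z := by
  intro k Λ R C3
  refine ⟨|C3| * (k + 5) + 1, by positivity, ?_⟩
  intro τ hτ0 hτ64
  have hI0 := I0_pos
  -- the volume of the unit ball
  set v : ℝ := (volume (closedBall (0 : E) 1)).toReal with hv
  have hv0 : 0 ≤ v := ENNReal.toReal_nonneg
  set M : ℝ := 1 + k * I0 + 841 * v / τ ^ 6 with hM
  have hM0 : 0 < M := by positivity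
  refine ⟨τ / ((k + 1) * M), by positivity, ?_⟩
  intro ω p u lam mu z sg ρ hω hc hρ
  have hk := hc.hk
  have hω0 := hc.hω.1
  have hωτ := hc.hω.2
  have hm0 : 0 < mu 0 := hc.hmu 0 (by omega)
  have hm1 : 0 < mu 1 := hc.hmu 1 (by omega)
  have h10 : mu 1 ≤ ω * mu 0 := hc.hsep 0 1 (by norm_num) (by omega)
  have hC3 := hc.hC3
  have hρ0 := hρ.pos
  have hD2 : DD mu z ^ 2 = mu 0 ^ 2 + ‖z 0 - z 1‖ ^ 2 := Real.sq_sqrt (by positivity)
  have hD0 : 0 < DD mu z := Real.sqrt_pos.2 (by positivity)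
  have hR1 := hc.hR.2
  have hRω := hc.hωR
  obtain ⟨htt0, htt1⟩ := BD_tt_le (z := z) hm0
  -- sizes
  have hDω : DD mu z ≤ 3 * ω := by
    apply le_of_sq_le_sq _ (by positivity)
    rw [hD2]
    have h1 : mu 0 ^ 2 ≤ ω ^ 2 := pow_le_pow_left₀ hm0.le hc.hmu0 2
    have h2 : ‖z 0 - z 1‖ ≤ 2 * ω := by
      have h3 : ‖z 0 - z 1‖ ≤ ‖z 0 - p‖ + ‖z 1 - p‖ := by
        have := norm_add_le (z 0 - p) (p - z 1)
        rwa [sub_add_sub_cancel, norm_sub_rev p (z 1)] at this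
      have := hc.hz 0 (by omega)
      have := hc.hz 1 (by omega)
      linarith
    have h4 : ‖z 0 - z 1‖ ^ 2 ≤ (2 * ω) ^ 2 := pow_le_pow_left₀ (norm_nonneg _) h2 2
    nlinarith
  have hρD : ρ ≤ DD mu z := by
    refine hρ.le.trans ?_
    nlinarith
  have hρ1 : 64 * ρ ≤ 3 * ω := by
    have h1 := hρ.le
    have h2 : τ * DD mu z ≤ 1 / 64 * DD mu z := mul_le_mul_of_nonneg_right hτ64 hD0.le
    linarith
  have hcard : (Finset.Ico 2 k).card ≤ k := by rw [Nat.card_Ico]; omega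
  have hsmall : ∀ l ∈ Finset.Ico 2 k, mu l ≤ ω * mu 1 := by
    intro l hl
    rw [Finset.mem_Ico] at hl
    exact hc.hsep 1 l (by omega) hl.2
  have hpos : ∀ l ∈ Finset.Ico 2 k, 0 < mu l := by
    intro l hl
    rw [Finset.mem_Ico] at hl
    exact hc.hmu l hl.2
  have hT1 : 1 ≤ 1 + tt mu z := by linarith
  have hμρ : mu 1 ≤ τ * ρ := by
    apply le_of_sq_le_sq _ (by positivity)
    rw [mul_pow]
    exact hρ.q5
  refine ⟨?_, hc.hu, hc.hlam, ⟨hτ0, by linarith⟩, hm1, ⟨hρ0, by linarith⟩, hT1,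
    hc.hsg 1 (by omega), ?_, ?_, ?_, hρ.q5, hρ.q1, ?_⟩
  · exact (Finset.card_filter_le _ _).trans hcard
  · intro l hl
    rw [Finset.mem_filter] at hl
    refine ⟨hpos l hl.1, (hsmall l hl.1).trans ?_, hl.2⟩
    exact mul_le_mul_of_nonneg_right hωτ hm1.le
  · -- the pointwise bound
    intro x hx
    rw [mem_closedBall, dist_eq_norm] at hx
    have hxp : x ∈ closedBall p R := by
      rw [mem_closedBall, dist_eq_norm]
      have h1 : ‖x - p‖ ≤ ‖x - z 1‖ + ‖z 1 - p‖ := by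
        have := norm_add_le (x - z 1) (z 1 - p)
        rwa [sub_add_sub_cancel] at this
      have h2 := hc.hz 1 (by omega)
      linarith
    have hst := hc.hstar x hxp
    have hfar : ∀ l ∈ Finset.Ico 2 k, ¬ ‖z l - z 1‖ ≤ ρ / 4 →
        U (mu l) (z l) x ≤ 1 + tt mu z := by
      intro l hl hn
      have hl' := Finset.mem_Ico.1 hl
      have h8 : 8 * ρ ≤ ‖z l - z 1‖ := by
        rcases hρ.gap l hl'.1 hl'.2 with h | h
        · exact absurd h hn
        · exact h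
      have h6 : 6 * ρ ≤ ‖x - z l‖ := by
        have h1 : ‖z l - z 1‖ ≤ ‖x - z l‖ + ‖x - z 1‖ := by
          have := norm_add_le (z l - x) (x - z 1)
          rwa [sub_add_sub_cancel, norm_sub_rev (z l) x] at this
        linarith
      refine (BD_U_far (by positivity) h6).trans ?_
      rw [div_le_iff₀ (by positivity)]
      have h3 := hρ.q3 l hl'.1 hl'.2
      have h4 : τ * (1 + tt mu z) * ρ ^ 4 ≤ 1 / 64 * (1 + tt mu z) * ρ ^ 4 := by gcongr
      have h5 : 0 ≤ (1 + tt mu z) * ρ ^ 4 := by positivity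
      have e : (6 * ρ) ^ 4 = 1296 * ρ ^ 4 := by ring
      rw [e]
      linarith
    have hsum := BD_sum_bound (k := k) (mu := mu) (z := z) (c := z 1) (x := x) (ρ := ρ)
      (T := 1 + tt mu z) hcard (by linarith) hfar
    have hU0 := BD_U0 hτ0 hτ64 hm0 hρ hx
    have e0 : ∑ l ∈ Finset.range k, U (mu l) (z l) x =
        U (mu 0) (z 0) x + (U (mu 1) (z 1) x + ∑ l ∈ Finset.Ico 2 k, U (mu l) (z l) x) := by
      rw [Finset.range_eq_Ico, Finset.sum_eq_sum_Ico_succ_bot (by omega : 0 < k),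
        Finset.sum_eq_sum_Ico_succ_bot (by omega : 0 + 1 < k)]
    rw [e0] at hst
    set a := U (mu 1) (z 1) x with ha
    set b := ∑ l ∈ (Finset.Ico 2 k).filter (fun l => ‖z l - z 1‖ ≤ ρ / 4), U (mu l) (z l) x with hb
    set T := 1 + tt mu z with hT
    have ha0 : 0 ≤ a := BD_U_nonneg _ _ _
    have hb0 : 0 ≤ b := Finset.sum_nonneg fun l _ => BD_U_nonneg _ _ _
    have hC : |C3| = C3 := abs_of_nonneg (by linarith)
    rw [hC]
    have hk0 : (0 : ℝ) ≤ k := Nat.cast_nonneg k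
    have hkT : 0 ≤ (k : ℝ) * T := by positivity
    calc |u x| ≤ C3 * (1 + (6 / 5 * tt mu z + (a + (b + k * T)))) := by
          refine hst.trans ?_
          apply mul_le_mul_of_nonneg_left _ (by linarith)
          linarith
      _ ≤ C3 * ((k + 5) * (T + a + b)) := by
          apply mul_le_mul_of_nonneg_left _ (by linarith)
          have : 0 ≤ (k : ℝ) * (a + b) := by positivity
          linarith
      _ ≤ (C3 * (k + 5) + 1) * (T + a + b) := by
          have : 0 ≤ T + a + b := by linarith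
          linarith
  · -- r1
    have h1 : ρ ^ 6 * (1 + tt mu z) ^ 2 ≤ DD mu z * ρ ^ 5 * (1 + tt mu z) ^ 2 := by
      have : ρ ^ 6 = ρ * ρ ^ 5 := by ring
      rw [this]
      gcongr
    exact h1.trans hρ.up
  · -- the core
    have hcore := hc.hcore 1 (by norm_num)
    refine (BD_core_gen hc.hu.continuous hc.hmu hc.hsg (by omega : 1 < k) (z 1) (mu 1 / τ)).trans ?_
    have e1 : (Finset.range k).erase 1 = insert 0 (Finset.Ico 2 k) := by
      ext l
      simp only [Finset.mem_erase, Finset.mem_range, Finset.mem_insert, Finset.mem_Ico]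
      omega
    rw [e1, Finset.sum_insert (by simp)]
    have h1 : ∑ l ∈ Finset.Ico 2 k, ∫ x in closedBall (z 1) (mu 1 / τ), U (mu l) (z l) x ^ 2 ≤
        k * (I0 * ω ^ 2 * mu 1 ^ 2) := by
      calc ∑ l ∈ Finset.Ico 2 k, ∫ x in closedBall (z 1) (mu 1 / τ), U (mu l) (z l) x ^ 2
          ≤ ∑ _l ∈ Finset.Ico 2 k, I0 * ω ^ 2 * mu 1 ^ 2 := by
            apply Finset.sum_le_sum
            intro l hl
            exact BD_mass_small (hpos l hl) (hsmall l hl) hm1 hω0 _ _ _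
        _ = (Finset.Ico 2 k).card * (I0 * ω ^ 2 * mu 1 ^ 2) := by
            rw [Finset.sum_const, nsmul_eq_mul]
        _ ≤ k * (I0 * ω ^ 2 * mu 1 ^ 2) := by
            have h3 : ((Finset.Ico 2 k).card : ℝ) ≤ k := by exact_mod_cast hcard
            exact mul_le_mul_of_nonneg_right h3 (by positivity)
    -- the first bubble
    have h2 : ∫ x in closedBall (z 1) (mu 1 / τ), U (mu 0) (z 0) x ^ 2 ≤
        841 * v / τ ^ 6 * ω ^ 4 * mu 1 ^ 2 := by
      have hr0 : 0 < mu 1 / τ := by positivity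
      have hvol : (volume (closedBall (z 1) (mu 1 / τ))).toReal = (mu 1 / τ) ^ 6 * v := by
        rw [Measure.addHaar_closedBall' _ _ hr0.le, ENNReal.toReal_mul,
          ENNReal.toReal_ofReal (by positivity), finrank_euclideanSpace_fin]
      have hbd : ∀ x ∈ closedBall (z 1) (mu 1 / τ), U (mu 0) (z 0) x ^ 2 ≤ 841 / mu 0 ^ 4 := by
        intro x hx
        rw [mem_closedBall, dist_eq_norm] at hx
        have hx2 : ‖x - z 1‖ ≤ 2 * ρ := by
          refine hx.trans ?_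
          rw [div_le_iff₀ hτ0]
          nlinarith
        have h3 := BD_U0 hτ0 hτ64 hm0 hρ hx2
        have h4 : U (mu 0) (z 0) x ≤ 29 / mu 0 ^ 2 := by
          calc U (mu 0) (z 0) x ≤ 6 / 5 * tt mu z := h3
            _ ≤ 6 / 5 * (24 / mu 0 ^ 2) := by gcongr
            _ = 144 / 5 / mu 0 ^ 2 := by ring
            _ ≤ 29 / mu 0 ^ 2 := by gcongr; norm_num
        calc U (mu 0) (z 0) x ^ 2 ≤ (29 / mu 0 ^ 2) ^ 2 :=
              pow_le_pow_left₀ (BD_U_nonneg _ _ _) h4 2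
          _ = 841 / mu 0 ^ 4 := by ring
      have i1 : IntegrableOn (fun x => U (mu 0) (z 0) x ^ 2) (closedBall (z 1) (mu 1 / τ)) :=
        ((BD_U_cont hm0 (z 0)).pow 2).continuousOn.integrableOn_compact (isCompact_closedBall _ _)
      have i2 : IntegrableOn (fun _ : E => 841 / mu 0 ^ 4) (closedBall (z 1) (mu 1 / τ)) :=
        continuousOn_const.integrableOn_compact (isCompact_closedBall _ _)
      calc ∫ x in closedBall (z 1) (mu 1 / τ), U (mu 0) (z 0) x ^ 2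
          ≤ ∫ _x in closedBall (z 1) (mu 1 / τ), (841 / mu 0 ^ 4 : ℝ) :=
            setIntegral_mono_on i1 i2 isClosed_closedBall.measurableSet hbd
        _ = (mu 1 / τ) ^ 6 * v * (841 / mu 0 ^ 4) := by
            rw [setIntegral_const, smul_eq_mul]
            congr 1
        _ = (841 * v / τ ^ 6) * (mu 1 ^ 4 / mu 0 ^ 4) * mu 1 ^ 2 := by
            field_simp
        _ ≤ (841 * v / τ ^ 6) * ω ^ 4 * mu 1 ^ 2 := by
            have h5 : mu 1 ^ 4 / mu 0 ^ 4 ≤ ω ^ 4 := by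
              rw [div_le_iff₀ (by positivity), ← mul_pow]
              exact pow_le_pow_left₀ hm1.le h10 4
            gcongr
    have hk0 : (0 : ℝ) ≤ k := Nat.cast_nonneg k
    have hω1 : ω ≤ 1 := by linarith
    have hωle : ω ^ 2 ≤ ω := by nlinarith
    have hωle4 : ω ^ 4 ≤ ω := by
      calc ω ^ 4 = ω ^ 3 * ω := by ring
        _ ≤ 1 * ω := mul_le_mul_of_nonneg_right (pow_le_one₀ hω0.le hω1) hω0.le
        _ = ω := one_mul _
    have h4 : ω * ((k + 1) * M) ≤ τ := by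
      rwa [le_div_iff₀ (by positivity)] at hω
    calc (k : ℝ) * ((∫ x in closedBall (z 1) (mu 1 / τ), (u x - bubbles k sg mu z x) ^ 2) +
          ((∫ x in closedBall (z 1) (mu 1 / τ), U (mu 0) (z 0) x ^ 2) +
          ∑ l ∈ Finset.Ico 2 k, ∫ x in closedBall (z 1) (mu 1 / τ), U (mu l) (z l) x ^ 2))
        ≤ k * (ω * mu 1 ^ 2 + (841 * v / τ ^ 6 * ω ^ 4 * mu 1 ^ 2 +
            k * (I0 * ω ^ 2 * mu 1 ^ 2))) :=
          mul_le_mul_of_nonneg_left (add_le_add hcore (add_le_add h2 h1)) hk0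
      _ ≤ k * (ω * mu 1 ^ 2 + (841 * v / τ ^ 6 * ω * mu 1 ^ 2 +
            k * (I0 * ω * mu 1 ^ 2))) := by gcongr
      _ = (ω * (k * M)) * mu 1 ^ 2 := by rw [hM]; ring
      _ ≤ τ * mu 1 ^ 2 := by
          apply mul_le_mul_of_nonneg_right _ (by positivity)
          have : 0 ≤ ω * M := by positivity
          linarith

end Pool.Helper4.BT
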