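import Pool.Agent.Helper4.BT.Defs

/-!
# Block BT-RHO0: the good radius around the first bubble
-/

namespace Pool.Helper4.BT

open MeasureTheory Metric Set

theorem RHO_pigeon (L : Finset ℕ) (d : ℕ → ℝ) (b : ℝ) (hb : 0 < b) :
    ∃ i ≤ L.card, ∀ l ∈ L, d l ≤ b / 32 ^ i / 4 ∨ 8 * (b / 32 ^ i) ≤ d l := by
  by_contra hcon
  push Not at hcon
  have h1 : ∀ i : ℕ, ∃ l, i ≤ L.card → l ∈ L ∧ b / 32 ^ i / 4 < d l ∧ d l < 8 * (b / 32 ^ i) := by
    intro i
    by_cases hi : i ≤ L.card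
    · obtain ⟨l, hl, h1, h2⟩ := hcon i hi
      exact ⟨l, fun _ => ⟨hl, h1, h2⟩⟩
    · exact ⟨0, fun h => absurd h hi⟩
  choose f hf using h1
  obtain ⟨i, hi, j, hj, hij, hfij⟩ := Finset.exists_ne_map_eq_of_card_lt_of_maps_to
    (s := Finset.range (L.card + 1)) (t := L) (f := f) (by simp)
    (fun i hi => (hf i (by simpa [Nat.lt_succ_iff] using hi)).1)
  have key : ∀ i j : ℕ, i ≤ L.card → j ≤ L.card → i < j → f i = f j → False := by
    intro i j hi hj hij hfij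
    have a1 := (hf i hi).2.1
    have a2 := (hf j hj).2.2
    rw [hfij] at a1
    have a3 : b / 32 ^ i / 4 < 8 * (b / 32 ^ j) := a1.trans a2
    have a4 : (32 : ℝ) ^ (i + 1) ≤ 32 ^ j := pow_le_pow_right₀ (by norm_num) hij
    have a5 : b / 32 ^ j ≤ b / 32 ^ (i + 1) := by
      apply div_le_div_of_nonneg_left hb.le (by positivity) a4
    have a6 : b / 32 ^ (i + 1) = b / 32 ^ i / 32 := by
      rw [pow_succ]; field_simp
    rw [a6] at a5
    linarith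
  rw [Finset.mem_range, Nat.lt_succ_iff] at hi hj
  rcases lt_or_gt_of_ne hij with h | h
  · exact key i j hi hj h hfij
  · exact key j i hj hi h hfij.symm

theorem exists_rho0 (k : ℕ) (mu : ℕ → ℝ) (z : ℕ → E) (h0 : 0 < mu 0) :
    ∃ ρ, Rho0 k mu z ρ := by
  obtain ⟨i, hi, hgap⟩ := RHO_pigeon (Finset.Ico 1 k) (fun l => ‖z l - z 0‖) (√(mu 0))
    (Real.sqrt_pos.2 h0)
  rw [Nat.card_Ico] at hi
  have hsq : (√(mu 0) / 32 ^ i) ^ 2 = mu 0 / 32 ^ (2 * i) := by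
    rw [div_pow, Real.sq_sqrt h0.le, ← pow_mul, mul_comm i 2]
  refine ⟨√(mu 0) / 32 ^ i, ?_, ?_, ?_, ?_⟩
  · have := Real.sqrt_pos.2 h0
    positivity
  · rw [hsq]
    exact div_le_self h0.le (one_le_pow₀ (by norm_num))
  · rw [hsq]
    have h1 : (32 : ℝ) ^ (2 * i) ≤ 32 ^ (2 * k) := pow_le_pow_right₀ (by norm_num) (by omega)
    rw [mul_div_assoc', le_div_iff₀ (by positivity), mul_comm]
    exact mul_le_mul_of_nonneg_right h1 h0.le
  · intro l h1 h2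
    exact hgap l (Finset.mem_Ico.2 ⟨h1, h2⟩)

end Pool.Helper4.BT
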