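import Pool.Agent.Helper63.BT.RHO0

/-!
# Block BT-RHO1: the good radius around the second bubble
-/

namespace Pool.Helper4.BT

open MeasureTheory Metric Set

/-- The real inequalities: `D` and `T` stand for `DD` and `1 + tt`. -/
theorem RHO1_ineq {τ ω D T S m0 m1 r : ℝ} (hτ0 : 0 < τ) (hτ : τ ≤ 1) (hω0 : 0 < ω)
    (hS : 1 ≤ S) (hm0 : 0 < m0) (hm1 : 0 < m1) (hD0 : 0 < D) (h0D : m0 ≤ D) (h10 : m1 ≤ ω * m0)
    (hω1 : ω ≤ 1) (hT : 1 ≤ T) (hDT : D ^ 2 * T ≤ 25) (hDT4 : 24 * m0 ^ 2 ≤ T * D ^ 4)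
    (hstar : 25 ^ 9 * ω ^ 2 * S ^ 35 ≤ τ ^ 12) {P : ℝ} (hP0 : 0 < P)
    (hP : P = τ * m1 ^ 2 / (D * T ^ 2)) {ra : ℝ} (hra : 0 < ra) (hra5 : ra ^ 5 = P)
    (hr0 : 0 < r) (hr : ra / S ≤ r ∨ τ * D / S ≤ r) :
    m1 ^ 4 ≤ τ * T * r ^ 6 ∧ D * m1 ^ 4 ≤ τ * T * r ^ 7 ∧
    (∀ m : ℝ, 0 < m → m ≤ ω * m1 → m ^ 2 ≤ τ * T * r ^ 4) ∧
    (∀ m : ℝ, 0 < m → m ≤ ω * m1 → D * m ^ 2 ≤ τ * T * r ^ 5) ∧
    m1 ^ 2 ≤ τ ^ 2 * r ^ 2 ∧ D * m1 ^ 2 ≤ τ * r ^ 3 := by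
  have hT0 : 0 < T := by linarith
  have hS0 : 0 < S := by linarith
  have hDT0 : 0 < D ^ 2 * T := by positivity
  -- powers of `τ`
  have tp : ∀ a : ℕ, a ≤ 12 → τ ^ 12 ≤ τ ^ a := fun a ha => pow_le_pow_of_le_one hτ0.le hτ ha
  -- the master inequality
  have ms : ∀ (a b c : ℕ), a ≤ 9 → 2 ≤ b → c ≤ 35 → (25 : ℝ) ^ a * ω ^ b * S ^ c ≤ τ ^ 12 := by
    intro a b c ha hb hc
    refine le_trans ?_ hstar
    have e1 : (25 : ℝ) ^ a ≤ 25 ^ 9 := pow_le_pow_right₀ (by norm_num) ha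
    have e2 : ω ^ b ≤ ω ^ 2 := pow_le_pow_of_le_one hω0.le hω1 hb
    have e3 : S ^ c ≤ S ^ 35 := pow_le_pow_right₀ hS hc
    gcongr
  have m1D : m1 ≤ ω * D := h10.trans (mul_le_mul_of_nonneg_left h0D hω0.le)
  have DTp : ∀ a : ℕ, (D ^ 2 * T) ^ a ≤ 25 ^ a := fun a => pow_le_pow_left₀ hDT0.le hDT a
  have m1p : ∀ a : ℕ, m1 ^ a ≤ (ω * D) ^ a := fun a => pow_le_pow_left₀ hm1.le m1D a
  rcases hr with hr | hr
  · -- the radius `ra / S`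
    have gen : ∀ (X c : ℝ) (m : ℕ), 0 ≤ X → 0 ≤ c → X ^ 5 * S ^ (5 * m) ≤ c ^ 5 * P ^ m →
        X ≤ c * r ^ m := by
      intro X c m hX hc h
      have h1 : X ≤ c * (ra / S) ^ m := by
        refine le_of_pow_le_pow_left₀ (n := 5) (by norm_num) (by positivity) ?_
        have e : (c * (ra / S) ^ m) ^ 5 = c ^ 5 * P ^ m / S ^ (5 * m) := by
          rw [mul_pow, ← pow_mul, mul_comm m 5, div_pow, ← hra5, ← pow_mul]
          ring
        rw [e, le_div_iff₀ (by positivity)]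
        exact h
      refine h1.trans ?_
      have : (ra / S) ^ m ≤ r ^ m := pow_le_pow_left₀ (by positivity) hr m
      exact mul_le_mul_of_nonneg_left this hc
    refine ⟨?_, ?_, ?_, ?_, ?_, ?_⟩
    · apply gen _ _ _ (by positivity) (by positivity)
      -- `m1^20 S^30 ≤ (τ T)^5 P^6`
      have e : (τ * T) ^ 5 * P ^ 6 = τ ^ 11 * m1 ^ 12 / (D ^ 6 * T ^ 7) := by
        rw [hP]; field_simp
      rw [e, le_div_iff₀ (by positivity)]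
      have h1 : m1 ^ 8 * D ^ 6 * T ^ 7 * S ^ 30 ≤ τ ^ 11 := by
        calc m1 ^ 8 * D ^ 6 * T ^ 7 * S ^ 30 ≤ (ω * D) ^ 8 * D ^ 6 * T ^ 7 * S ^ 30 := by
              have := m1p 8
              gcongr
          _ = (D ^ 2 * T) ^ 7 * ω ^ 8 * S ^ 30 := by ring
          _ ≤ 25 ^ 7 * ω ^ 8 * S ^ 30 := by
              have := DTp 7
              gcongr
          _ ≤ τ ^ 12 := ms 7 8 30 (by norm_num) (by norm_num) (by norm_num)
          _ ≤ τ ^ 11 := tp 11 (by norm_num)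
      calc (m1 ^ 4) ^ 5 * S ^ (5 * 6) * (D ^ 6 * T ^ 7) =
            (m1 ^ 8 * D ^ 6 * T ^ 7 * S ^ 30) * m1 ^ 12 := by ring
        _ ≤ τ ^ 11 * m1 ^ 12 := by gcongr
    · apply gen _ _ _ (by positivity) (by positivity)
      have e : (τ * T) ^ 5 * P ^ 7 = τ ^ 12 * m1 ^ 14 / (D ^ 7 * T ^ 9) := by
        rw [hP]; field_simp
      rw [e, le_div_iff₀ (by positivity)]
      have h1 : m1 ^ 6 * D ^ 12 * T ^ 9 * S ^ 35 ≤ τ ^ 12 := by
        calc m1 ^ 6 * D ^ 12 * T ^ 9 * S ^ 35 ≤ (ω * D) ^ 6 * D ^ 12 * T ^ 9 * S ^ 35 := by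
              have := m1p 6
              gcongr
          _ = (D ^ 2 * T) ^ 9 * ω ^ 6 * S ^ 35 := by ring
          _ ≤ 25 ^ 9 * ω ^ 6 * S ^ 35 := by
              have := DTp 9
              gcongr
          _ ≤ τ ^ 12 := ms 9 6 35 (by norm_num) (by norm_num) (by norm_num)
      calc (D * m1 ^ 4) ^ 5 * S ^ (5 * 7) * (D ^ 7 * T ^ 9) =
            (m1 ^ 6 * D ^ 12 * T ^ 9 * S ^ 35) * m1 ^ 14 := by ring
        _ ≤ τ ^ 12 * m1 ^ 14 := by gcongr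
    · intro m hm hmm
      apply gen _ _ _ (by positivity) (by positivity)
      have e : (τ * T) ^ 5 * P ^ 4 = τ ^ 9 * m1 ^ 8 / (D ^ 4 * T ^ 3) := by
        rw [hP]; field_simp
      rw [e, le_div_iff₀ (by positivity)]
      have h0 : m ^ 10 ≤ (ω * m1) ^ 10 := pow_le_pow_left₀ hm.le hmm 10
      have h1 : ω ^ 10 * m1 ^ 2 * D ^ 4 * T ^ 3 * S ^ 20 ≤ τ ^ 9 := by
        calc ω ^ 10 * m1 ^ 2 * D ^ 4 * T ^ 3 * S ^ 20
            ≤ ω ^ 10 * (ω * D) ^ 2 * D ^ 4 * T ^ 3 * S ^ 20 := by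
              have := m1p 2
              gcongr
          _ = (D ^ 2 * T) ^ 3 * ω ^ 12 * S ^ 20 := by ring
          _ ≤ 25 ^ 3 * ω ^ 12 * S ^ 20 := by
              have := DTp 3
              gcongr
          _ ≤ τ ^ 12 := ms 3 12 20 (by norm_num) (by norm_num) (by norm_num)
          _ ≤ τ ^ 9 := tp 9 (by norm_num)
      calc (m ^ 2) ^ 5 * S ^ (5 * 4) * (D ^ 4 * T ^ 3) = m ^ 10 * (S ^ 20 * (D ^ 4 * T ^ 3)) := by
            ring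
        _ ≤ (ω * m1) ^ 10 * (S ^ 20 * (D ^ 4 * T ^ 3)) := by gcongr
        _ = (ω ^ 10 * m1 ^ 2 * D ^ 4 * T ^ 3 * S ^ 20) * m1 ^ 8 := by ring
        _ ≤ τ ^ 9 * m1 ^ 8 := by gcongr
    · intro m hm hmm
      apply gen _ _ _ (by positivity) (by positivity)
      have e : (τ * T) ^ 5 * P ^ 5 = (τ ^ 2 * m1 ^ 2 / (D * T)) ^ 5 := by
        rw [hP]; field_simp
      rw [e]
      have e2 : (D * m ^ 2) ^ 5 * S ^ (5 * 5) = (D * m ^ 2 * S ^ 5) ^ 5 := by ring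
      rw [e2]
      apply pow_le_pow_left₀ (by positivity)
      rw [le_div_iff₀ (by positivity)]
      have h0 : m ^ 2 ≤ (ω * m1) ^ 2 := pow_le_pow_left₀ hm.le hmm 2
      have h1 : D ^ 2 * T * ω ^ 2 * S ^ 5 ≤ τ ^ 2 := by
        calc D ^ 2 * T * ω ^ 2 * S ^ 5 ≤ 25 ^ 1 * ω ^ 2 * S ^ 5 := by
              rw [pow_one]; gcongr
          _ ≤ τ ^ 12 := ms 1 2 5 (by norm_num) (by norm_num) (by norm_num)
          _ ≤ τ ^ 2 := tp 2 (by norm_num)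
      calc D * m ^ 2 * S ^ 5 * (D * T) = m ^ 2 * (D ^ 2 * T * S ^ 5) := by ring
        _ ≤ (ω * m1) ^ 2 * (D ^ 2 * T * S ^ 5) := by gcongr
        _ = (D ^ 2 * T * ω ^ 2 * S ^ 5) * m1 ^ 2 := by ring
        _ ≤ τ ^ 2 * m1 ^ 2 := by gcongr
    · apply gen _ _ _ (by positivity) (by positivity)
      have e : (τ ^ 2) ^ 5 * P ^ 2 = τ ^ 12 * m1 ^ 4 / (D ^ 2 * T ^ 4) := by
        rw [hP]; field_simp
      rw [e, le_div_iff₀ (by positivity)]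
      have h1 : m1 ^ 6 * D ^ 2 * T ^ 4 * S ^ 10 ≤ τ ^ 12 := by
        calc m1 ^ 6 * D ^ 2 * T ^ 4 * S ^ 10 ≤ (ω * D) ^ 6 * D ^ 2 * T ^ 4 * S ^ 10 := by
              have := m1p 6
              gcongr
          _ = (D ^ 2 * T) ^ 4 * ω ^ 6 * S ^ 10 := by ring
          _ ≤ 25 ^ 4 * ω ^ 6 * S ^ 10 := by
              have := DTp 4
              gcongr
          _ ≤ τ ^ 12 := ms 4 6 10 (by norm_num) (by norm_num) (by norm_num)
      calc (m1 ^ 2) ^ 5 * S ^ (5 * 2) * (D ^ 2 * T ^ 4) =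
            (m1 ^ 6 * D ^ 2 * T ^ 4 * S ^ 10) * m1 ^ 4 := by ring
        _ ≤ τ ^ 12 * m1 ^ 4 := by gcongr
    · apply gen _ _ _ (by positivity) (by positivity)
      have e : τ ^ 5 * P ^ 3 = τ ^ 8 * m1 ^ 6 / (D ^ 3 * T ^ 6) := by
        rw [hP]; field_simp
      rw [e, le_div_iff₀ (by positivity)]
      have h1 : m1 ^ 4 * D ^ 8 * T ^ 6 * S ^ 15 ≤ τ ^ 8 := by
        calc m1 ^ 4 * D ^ 8 * T ^ 6 * S ^ 15 ≤ (ω * D) ^ 4 * D ^ 8 * T ^ 6 * S ^ 15 := by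
              have := m1p 4
              gcongr
          _ = (D ^ 2 * T) ^ 6 * ω ^ 4 * S ^ 15 := by ring
          _ ≤ 25 ^ 6 * ω ^ 4 * S ^ 15 := by
              have := DTp 6
              gcongr
          _ ≤ τ ^ 12 := ms 6 4 15 (by norm_num) (by norm_num) (by norm_num)
          _ ≤ τ ^ 8 := tp 8 (by norm_num)
      calc (D * m1 ^ 2) ^ 5 * S ^ (5 * 3) * (D ^ 3 * T ^ 6) =
            (m1 ^ 4 * D ^ 8 * T ^ 6 * S ^ 15) * m1 ^ 6 := by ring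
        _ ≤ τ ^ 8 * m1 ^ 6 := by gcongr
  · -- the radius `τ D / S`
    have gen : ∀ (X c : ℝ) (m : ℕ), 0 ≤ c → X * S ^ m ≤ c * (τ * D) ^ m → X ≤ c * r ^ m := by
      intro X c m hc h
      have h1 : X ≤ c * (τ * D / S) ^ m := by
        rw [div_pow, mul_div_assoc', le_div_iff₀ (by positivity)]
        exact h
      refine h1.trans ?_
      have : (τ * D / S) ^ m ≤ r ^ m := pow_le_pow_left₀ (by positivity) hr m
      exact mul_le_mul_of_nonneg_left this hc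
    have m1m0 : ∀ a : ℕ, m1 ^ a ≤ (ω * m0) ^ a := fun a => pow_le_pow_left₀ hm1.le h10 a
    have h02 : m0 ^ 2 ≤ D ^ 2 := pow_le_pow_left₀ hm0.le h0D 2
    -- `X ≤ ω^2 ...`
    have sm : ∀ c a b : ℕ, 2 ≤ b → c ≤ 35 → a ≤ 12 → ω ^ b * S ^ c ≤ τ ^ a := by
      intro c a b hb hc ha
      have := (ms 0 b c (by norm_num) hb hc).trans (tp a ha)
      rwa [pow_zero, one_mul] at this
    refine ⟨?_, ?_, ?_, ?_, ?_, ?_⟩
    · apply gen _ _ _ (by positivity)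
      calc m1 ^ 4 * S ^ 6 ≤ (ω * m0) ^ 4 * S ^ 6 := by
            have := m1m0 4
            gcongr
        _ = (ω ^ 4 * S ^ 6) * (m0 ^ 2 * m0 ^ 2) := by ring
        _ ≤ τ ^ 7 * (m0 ^ 2 * D ^ 2) := by
            have := sm 6 7 4 (by norm_num) (by norm_num) (by norm_num)
            gcongr
        _ ≤ τ ^ 7 * (24 * m0 ^ 2 * D ^ 2) := by
            have : 0 ≤ m0 ^ 2 * D ^ 2 := by positivity
            have h : m0 ^ 2 * D ^ 2 ≤ 24 * m0 ^ 2 * D ^ 2 := by linarith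
            gcongr
        _ ≤ τ ^ 7 * (T * D ^ 4 * D ^ 2) := by gcongr
        _ = τ * T * (τ * D) ^ 6 := by ring
    · apply gen _ _ _ (by positivity)
      calc D * m1 ^ 4 * S ^ 7 ≤ D * (ω * m0) ^ 4 * S ^ 7 := by
            have := m1m0 4
            gcongr
        _ = (ω ^ 4 * S ^ 7) * (m0 ^ 2 * m0 ^ 2 * D) := by ring
        _ ≤ τ ^ 8 * (m0 ^ 2 * D ^ 2 * D) := by
            have := sm 7 8 4 (by norm_num) (by norm_num) (by norm_num)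
            gcongr
        _ ≤ τ ^ 8 * (24 * m0 ^ 2 * D ^ 2 * D) := by
            have : 0 ≤ m0 ^ 2 * D ^ 2 * D := by positivity
            have h : m0 ^ 2 * D ^ 2 * D ≤ 24 * m0 ^ 2 * D ^ 2 * D := by linarith
            gcongr
        _ ≤ τ ^ 8 * (T * D ^ 4 * D ^ 2 * D) := by gcongr
        _ = τ * T * (τ * D) ^ 7 := by ring
    · intro m hm hmm
      have h0 : m ^ 2 ≤ (ω * m1) ^ 2 := pow_le_pow_left₀ hm.le hmm 2
      apply gen _ _ _ (by positivity)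
      calc m ^ 2 * S ^ 4 ≤ (ω * m1) ^ 2 * S ^ 4 := by gcongr
        _ = ω ^ 2 * m1 ^ 2 * S ^ 4 := by ring
        _ ≤ ω ^ 2 * (ω * m0) ^ 2 * S ^ 4 := by
            have := m1m0 2
            gcongr
        _ = (ω ^ 4 * S ^ 4) * m0 ^ 2 := by ring
        _ ≤ τ ^ 5 * m0 ^ 2 := by
            have := sm 4 5 4 (by norm_num) (by norm_num) (by norm_num)
            gcongr
        _ ≤ τ ^ 5 * (24 * m0 ^ 2) := by
            have : 0 ≤ m0 ^ 2 := by positivity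
            have h : m0 ^ 2 ≤ 24 * m0 ^ 2 := by linarith
            gcongr
        _ ≤ τ ^ 5 * (T * D ^ 4) := by gcongr
        _ = τ * T * (τ * D) ^ 4 := by ring
    · intro m hm hmm
      have h0 : m ^ 2 ≤ (ω * m1) ^ 2 := pow_le_pow_left₀ hm.le hmm 2
      apply gen _ _ _ (by positivity)
      calc D * m ^ 2 * S ^ 5 ≤ D * (ω * m1) ^ 2 * S ^ 5 := by gcongr
        _ = D * ω ^ 2 * m1 ^ 2 * S ^ 5 := by ring
        _ ≤ D * ω ^ 2 * (ω * m0) ^ 2 * S ^ 5 := by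
            have := m1m0 2
            gcongr
        _ = (ω ^ 4 * S ^ 5) * (m0 ^ 2 * D) := by ring
        _ ≤ τ ^ 6 * (m0 ^ 2 * D) := by
            have := sm 5 6 4 (by norm_num) (by norm_num) (by norm_num)
            gcongr
        _ ≤ τ ^ 6 * (24 * m0 ^ 2 * D) := by
            have : 0 ≤ m0 ^ 2 * D := by positivity
            have h : m0 ^ 2 * D ≤ 24 * m0 ^ 2 * D := by linarith
            gcongr
        _ ≤ τ ^ 6 * (T * D ^ 4 * D) := by gcongr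
        _ = τ * T * (τ * D) ^ 5 := by ring
    · apply gen _ _ _ (by positivity)
      calc m1 ^ 2 * S ^ 2 ≤ (ω * D) ^ 2 * S ^ 2 := by
            have := m1p 2
            gcongr
        _ = (ω ^ 2 * S ^ 2) * D ^ 2 := by ring
        _ ≤ τ ^ 4 * D ^ 2 := by
            have := sm 2 4 2 (by norm_num) (by norm_num) (by norm_num)
            gcongr
        _ = τ ^ 2 * (τ * D) ^ 2 := by ring
    · apply gen _ _ _ (by positivity)
      calc D * m1 ^ 2 * S ^ 3 ≤ D * (ω * D) ^ 2 * S ^ 3 := by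
            have := m1p 2
            gcongr
        _ = (ω ^ 2 * S ^ 3) * (D ^ 2 * D) := by ring
        _ ≤ τ ^ 4 * (D ^ 2 * D) := by
            have := sm 3 4 2 (by norm_num) (by norm_num) (by norm_num)
            gcongr
        _ = τ * (τ * D) ^ 3 := by ring

theorem exists_rho1 : ∀ (k : ℕ) (τ : ℝ), 0 < τ → τ ≤ 1 → ∃ ω0 : ℝ, 0 < ω0 ∧
    ∀ (ω : ℝ) (mu : ℕ → ℝ) (z : ℕ → E), 0 < ω → ω ≤ ω0 → 2 ≤ k → (∀ l < k, 0 < mu l) →
      mu 0 ≤ ω → (∀ l l', l < l' → l' < k → mu l' ≤ ω * mu l) → ‖z 0 - z 1‖ ≤ 2 * ω →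
      ∃ ρ, Rho1 k τ mu z ρ := by
  intro k τ hτ0 hτ
  set S : ℝ := 32 ^ k with hSdef
  have hS : 1 ≤ S := one_le_pow₀ (by norm_num)
  have hS0 : 0 < S := by linarith
  refine ⟨τ ^ 6 / (25 ^ 5 * S ^ 18), by positivity, ?_⟩
  intro ω mu z hω0 hω hk hmu hmu0 hsep hz
  have hω1 : ω ≤ 1 / 3 := by
    refine hω.trans ?_
    rw [div_le_iff₀ (by positivity)]
    have h1 : τ ^ 6 ≤ 1 := pow_le_one₀ hτ0.le hτ
    have h2 : 1 ≤ S ^ 18 := one_le_pow₀ hS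
    linarith
  have hstar : 25 ^ 9 * ω ^ 2 * S ^ 35 ≤ τ ^ 12 := by
    have h1 : ω ^ 2 ≤ (τ ^ 6 / (25 ^ 5 * S ^ 18)) ^ 2 := pow_le_pow_left₀ hω0.le hω 2
    calc 25 ^ 9 * ω ^ 2 * S ^ 35 ≤ 25 ^ 9 * (τ ^ 6 / (25 ^ 5 * S ^ 18)) ^ 2 * S ^ 35 := by gcongr
      _ = τ ^ 12 / (25 * S) := by field_simp
      _ ≤ τ ^ 12 := div_le_self (by positivity) (by linarith)
  have hm0 : 0 < mu 0 := hmu 0 (by omega)
  have hm1 : 0 < mu 1 := hmu 1 (by omega)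
  have h10 : mu 1 ≤ ω * mu 0 := hsep 0 1 (by norm_num) (by omega)
  have hD2 : DD mu z ^ 2 = mu 0 ^ 2 + ‖z 0 - z 1‖ ^ 2 := Real.sq_sqrt (by positivity)
  have hD0 : 0 < DD mu z := Real.sqrt_pos.2 (by positivity)
  have h0D : mu 0 ≤ DD mu z := by
    apply le_of_sq_le_sq _ hD0.le
    rw [hD2]
    have := sq_nonneg ‖z 0 - z 1‖
    linarith
  have htt : tt mu z = 24 * mu 0 ^ 2 / DD mu z ^ 4 := by
    unfold tt U A
    rw [show DD mu z ^ 4 = (DD mu z ^ 2) ^ 2 by ring, hD2, norm_sub_rev]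
  have ht0 : 0 ≤ tt mu z := by rw [htt]; positivity
  have hDT4 : 24 * mu 0 ^ 2 ≤ (1 + tt mu z) * DD mu z ^ 4 := by
    have : tt mu z * DD mu z ^ 4 = 24 * mu 0 ^ 2 := by rw [htt]; field_simp
    have h4 : 0 ≤ DD mu z ^ 4 := by positivity
    linarith
  have hDT : DD mu z ^ 2 * (1 + tt mu z) ≤ 25 := by
    have h1 : DD mu z ^ 2 * tt mu z = 24 * (mu 0 ^ 2 / DD mu z ^ 2) := by rw [htt]; field_simp
    have h2 : mu 0 ^ 2 / DD mu z ^ 2 ≤ 1 := by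
      rw [div_le_one (by positivity)]
      exact pow_le_pow_left₀ hm0.le h0D 2
    have h3 : DD mu z ^ 2 ≤ 1 := by
      rw [hD2]
      have h4 : mu 0 ^ 2 ≤ (1 / 3) ^ 2 := pow_le_pow_left₀ hm0.le (hmu0.trans hω1) 2
      have h5 : ‖z 0 - z 1‖ ^ 2 ≤ (2 / 3) ^ 2 :=
        pow_le_pow_left₀ (norm_nonneg _) (by linarith) 2
      linarith
    linarith
  obtain ⟨D, hD⟩ : ∃ D, D = DD mu z := ⟨_, rfl⟩
  obtain ⟨T, hT⟩ : ∃ T, T = 1 + tt mu z := ⟨_, rfl⟩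
  rw [← hD] at hD0 h0D hDT4 hDT
  rw [← hT] at hDT4 hDT
  have hT1 : 1 ≤ T := by rw [hT]; linarith
  obtain ⟨P, hP⟩ : ∃ P, P = τ * mu 1 ^ 2 / (D * T ^ 2) := ⟨_, rfl⟩
  have hP0 : 0 < P := by rw [hP]; positivity
  obtain ⟨ra, hra, hra5⟩ : ∃ ra : ℝ, 0 < ra ∧ ra ^ 5 = P := by
    refine ⟨P ^ (((5 : ℕ) : ℝ)⁻¹), Real.rpow_pos_of_pos hP0 _, ?_⟩
    exact Real.rpow_inv_natCast_pow hP0.le (by norm_num)
  set b := min ra (τ * D) with hb
  have hb0 : 0 < b := lt_min hra (by positivity)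
  obtain ⟨i, hi, hgap⟩ := RHO_pigeon (Finset.Ico 2 k) (fun l => ‖z l - z 1‖) b hb0
  rw [Nat.card_Ico] at hi
  have hi32 : (0 : ℝ) < 32 ^ i := by positivity
  have hr0 : 0 < b / 32 ^ i := by positivity
  have hrb : b / 32 ^ i ≤ b := div_le_self hb0.le (one_le_pow₀ (by norm_num))
  have hSr : b / S ≤ b / 32 ^ i := by
    apply div_le_div_of_nonneg_left hb0.le hi32
    exact pow_le_pow_right₀ (by norm_num) (by omega)
  have hr : ra / S ≤ b / 32 ^ i ∨ τ * D / S ≤ b / 32 ^ i := by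
    rcases min_choice ra (τ * D) with h | h
    · left; rw [← hb] at h; rw [← h]; exact hSr
    · right; rw [← hb] at h; rw [← h]; exact hSr
  obtain ⟨q1, q2, q3, q4, q5, q6⟩ := RHO1_ineq hτ0 hτ hω0 hS hm0 hm1 hD0 h0D h10
    (by linarith) hT1 hDT hDT4 hstar hP0 hP hra hra5 hr0 hr
  refine ⟨b / 32 ^ i, hr0, ?_, ?_, ?_, ?_, ?_, ?_, q5, ?_, ?_⟩
  · rw [← hD]
    exact hrb.trans (min_le_right _ _)
  · rw [← hD, ← hT]
    have h1 : (b / 32 ^ i) ^ 5 ≤ P := by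
      rw [← hra5]
      exact pow_le_pow_left₀ hr0.le (hrb.trans (min_le_left _ _)) 5
    calc D * (b / 32 ^ i) ^ 5 * T ^ 2 ≤ D * P * T ^ 2 := by gcongr
      _ = τ * mu 1 ^ 2 := by rw [hP]; field_simp
  · rw [← hT]; exact q1
  · rw [← hT, ← hD]; exact q2
  · intro l h2 hl
    rw [← hT]
    exact q3 _ (hmu l hl) (hsep 1 l (by omega) hl)
  · intro l h2 hl
    rw [← hT, ← hD]
    exact q4 _ (hmu l hl) (hsep 1 l (by omega) hl)
  · rw [← hD]; exact q6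
  · intro l h2 hl
    exact hgap l (Finset.mem_Ico.2 ⟨h2, hl⟩)

end Pool.Helper4.BT
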