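import Pool.Agent.Helper81.BT.UINT

/-!
# Auxiliary lemmas for the blocks BT-BD1 and BT-BD0
-/

namespace Pool.Helper4.BT

open MeasureTheory Metric Set

theorem BD_A_pos {μ : ℝ} (hμ : 0 < μ) (z x : E) : 0 < A μ z x := by
  unfold A
  positivity

theorem BD_U_nonneg (μ : ℝ) (z x : E) : 0 ≤ U μ z x := by
  unfold U
  positivity

theorem BD_U_cont {μ : ℝ} (hμ : 0 < μ) (z : E) : Continuous (U μ z) := by
  unfold U
  have h1 : Continuous (fun x : E => A μ z x) := by
    unfold A
    fun_prop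
  apply Continuous.div (by fun_prop) (by fun_prop)
  intro x
  have := BD_A_pos hμ z x
  positivity

theorem BD_bubbles_cont {k : ℕ} {mu : ℕ → ℝ} {z : ℕ → E} {sg : ℕ → ℝ} (hmu : ∀ l < k, 0 < mu l) :
    Continuous (bubbles k sg mu z) := by
  unfold bubbles
  apply continuous_finset_sum
  intro l hl
  exact continuous_const.mul (BD_U_cont (hmu l (Finset.mem_range.1 hl)) (z l))

/-- The bubble far from its centre. -/
theorem BD_U_far {μ s : ℝ} (hs : 0 < s) {z x : E} (h : s ≤ ‖x - z‖) :
    U μ z x ≤ 24 * μ ^ 2 / s ^ 4 := by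
  unfold U A
  have h1 : s ^ 2 ≤ ‖x - z‖ ^ 2 := pow_le_pow_left₀ hs.le h 2
  have h2 : s ^ 2 ≤ μ ^ 2 + ‖x - z‖ ^ 2 := by
    have := sq_nonneg μ
    linarith
  have h3 : s ^ 4 ≤ (μ ^ 2 + ‖x - z‖ ^ 2) ^ 2 := by
    calc s ^ 4 = (s ^ 2) ^ 2 := by ring
      _ ≤ _ := pow_le_pow_left₀ (by positivity) h2 2
  exact div_le_div_of_nonneg_left (by positivity) (by positivity) h3

/-- The `L²` distance to one bubble. -/
theorem BD_core_gen {k : ℕ} {u : E → ℝ} (hu : Continuous u) {mu : ℕ → ℝ} {z : ℕ → E} {sg : ℕ → ℝ}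
    (hmu : ∀ l < k, 0 < mu l) (hsg : ∀ l < k, sg l = 1 ∨ sg l = -1) {j : ℕ} (hj : j < k)
    (c : E) (r : ℝ) :
    ∫ x in closedBall c r, (u x - sg j * U (mu j) (z j) x) ^ 2 ≤
      k * ((∫ x in closedBall c r, (u x - bubbles k sg mu z x) ^ 2) +
        ∑ l ∈ (Finset.range k).erase j, ∫ x in closedBall c r, U (mu l) (z l) x ^ 2) := by
  have hcomp : IsCompact (closedBall c r) := isCompact_closedBall c r
  have cj := BD_U_cont (hmu j hj) (z j)
  have cb := BD_bubbles_cont (z := z) (sg := sg) hmu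
  have cl : ∀ l ∈ (Finset.range k).erase j, Continuous (U (mu l) (z l)) := fun l hl =>
    BD_U_cont (hmu l (Finset.mem_range.1 (Finset.mem_of_mem_erase hl))) (z l)
  have i1 : IntegrableOn (fun x => (u x - sg j * U (mu j) (z j) x) ^ 2) (closedBall c r) :=
    ((hu.sub (continuous_const.mul cj)).pow 2).continuousOn.integrableOn_compact hcomp
  have i2 : IntegrableOn (fun x => (u x - bubbles k sg mu z x) ^ 2) (closedBall c r) :=
    ((hu.sub cb).pow 2).continuousOn.integrableOn_compact hcomp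
  have i3 : ∀ l ∈ (Finset.range k).erase j,
      IntegrableOn (fun x => U (mu l) (z l) x ^ 2) (closedBall c r) := fun l hl =>
    ((cl l hl).pow 2).continuousOn.integrableOn_compact hcomp
  have i4 : IntegrableOn (fun x => ∑ l ∈ (Finset.range k).erase j, U (mu l) (z l) x ^ 2)
      (closedBall c r) := integrable_finset_sum _ i3
  rw [← integral_finset_sum _ i3, ← integral_add i2 i4, ← integral_const_mul]
  apply setIntegral_mono i1 ((i2.add i4).const_mul (k : ℝ))
  intro x
  -- the pointwise inequality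
  set f : ℕ → ℝ := fun l => if l = j then u x - bubbles k sg mu z x else sg l * U (mu l) (z l) x
    with hf
  have hs := sq_sum_le_card_mul_sum_sq (s := Finset.range k) (f := f)
  rw [Finset.card_range] at hs
  have e1 : ∑ l ∈ Finset.range k, f l = u x - sg j * U (mu j) (z j) x := by
    rw [← Finset.add_sum_erase _ _ (Finset.mem_range.2 hj)]
    have e2 : ∑ l ∈ (Finset.range k).erase j, f l =
        ∑ l ∈ (Finset.range k).erase j, sg l * U (mu l) (z l) x := by
      apply Finset.sum_congr rfl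
      intro l hl
      simp only [hf, if_neg (Finset.ne_of_mem_erase hl)]
    rw [e2]
    have e3 : bubbles k sg mu z x = sg j * U (mu j) (z j) x +
        ∑ l ∈ (Finset.range k).erase j, sg l * U (mu l) (z l) x := by
      unfold bubbles
      exact (Finset.add_sum_erase (Finset.range k) (fun l => sg l * U (mu l) (z l) x)
        (Finset.mem_range.2 hj)).symm
    simp only [hf, if_true]
    rw [e3]
    ring
  have e4 : ∑ l ∈ Finset.range k, f l ^ 2 = (u x - bubbles k sg mu z x) ^ 2 +
      ∑ l ∈ (Finset.range k).erase j, U (mu l) (z l) x ^ 2 := by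
    rw [← Finset.add_sum_erase _ _ (Finset.mem_range.2 hj)]
    congr 1
    · simp only [hf, if_true]
    · apply Finset.sum_congr rfl
      intro l hl
      simp only [hf, if_neg (Finset.ne_of_mem_erase hl)]
      rcases hsg l (Finset.mem_range.1 (Finset.mem_of_mem_erase hl)) with h | h <;> rw [h] <;> ring
  rw [e1, e4] at hs
  exact hs

/-- The mass of a small bubble. -/
theorem BD_mass_small {μ ω m : ℝ} (hμ : 0 < μ) (h : μ ≤ ω * m) (hm : 0 < m) (hω : 0 < ω)
    (z c : E) (r : ℝ) : ∫ x in closedBall c r, U μ z x ^ 2 ≤ I0 * ω ^ 2 * m ^ 2 := by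
  obtain ⟨h1, h2⟩ := integral_U_sq hμ z
  calc ∫ x in closedBall c r, U μ z x ^ 2 ≤ ∫ x, U μ z x ^ 2 :=
        setIntegral_le_integral h1 (Filter.Eventually.of_forall fun x => sq_nonneg _)
    _ = I0 * μ ^ 2 := h2
    _ ≤ I0 * (ω * m) ^ 2 := by
        have := I0_pos
        have h3 : μ ^ 2 ≤ (ω * m) ^ 2 := pow_le_pow_left₀ hμ.le h 2
        exact mul_le_mul_of_nonneg_left h3 this.le
    _ = _ := by ring

end Pool.Helper4.BT
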